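import Pool.Agent.Work.MP_2738db_nt_C.Interface

/-!
Block NDL: counting the integers `δ` in the reduction RED.
-/

set_option autoImplicit false

namespace Pool.Agent.Work.MP_2738db_nt_C.helper83

open Finset

/-- **NDL** -/
theorem ndl : Stmt_Ndl := by
  classical
  intro L l W hL hl hW
  set S : Set ℕ := {δ : ℕ | 1 ≤ δ ∧ (∀ p : ℕ, p.Prime → p ∣ δ → p ∣ L) ∧ δ.factorization 2 < l ∧
      ∀ p : ℕ, p.Prime → p ≠ 2 → (δ.factorization p : ℝ) ≤ 2 * p * W} with hS
  set b : ℕ → ℕ := fun p => if p = 2 then l else ⌊2 * (p : ℝ) * W⌋₊ + 1 with hb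
  set F : Finset (ℕ →₀ ℕ) := L.primeFactors.finsupp (fun p => range (b p)) with hF
  have hmaps : ∀ δ ∈ S, δ.factorization ∈ (F : Set (ℕ →₀ ℕ)) := by
    rintro δ ⟨h1, h2, h3, h4⟩
    rw [mem_coe, hF, mem_finsupp_iff]
    constructor
    · intro p hp
      rw [Nat.support_factorization, Nat.mem_primeFactors] at hp
      exact Nat.mem_primeFactors.2 ⟨hp.1, h2 p hp.1 hp.2.1, by omega⟩
    · intro p hp
      rw [mem_range]
      by_cases hp2 : p = 2
      · simp only [hb, hp2, if_true]
        exact h3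
      · simp only [hb, hp2, if_false]
        have h5 := h4 p (Nat.prime_of_mem_primeFactors hp) hp2
        exact Nat.lt_succ_of_le (Nat.le_floor h5)
  have hinj : Set.InjOn (fun δ : ℕ => δ.factorization) S := by
    rintro δ ⟨h1, -⟩ δ' ⟨h1', -⟩ h
    exact Nat.eq_of_factorization_eq (by omega) (by omega) (fun p => by rw [show
      δ.factorization = δ'.factorization from h])
  refine ⟨Set.Finite.of_injOn (f := fun δ : ℕ => δ.factorization) hmaps hinj F.finite_toSet, ?_⟩
  have hcard : S.ncard ≤ F.card := by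
    have := Set.ncard_le_ncard_of_injOn (fun δ : ℕ => δ.factorization) hmaps hinj F.finite_toSet
    rwa [Set.ncard_coe_finset] at this
  have hFcard : F.card = ∏ p ∈ L.primeFactors, b p := by
    rw [hF, card_finsupp]
    simp
  have h1 : (F.card : ℝ) ≤ ∏ p ∈ L.primeFactors,
      ((if p = 2 then (l : ℝ) else 1) * ((p : ℝ) * (3 * W))) := by
    rw [hFcard, Nat.cast_prod]
    refine prod_le_prod (fun p _ => Nat.cast_nonneg _) (fun p hp => ?_)
    have hp1 : (1 : ℝ) ≤ p := by
      exact_mod_cast (Nat.prime_of_mem_primeFactors hp).one_le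
    by_cases hp2 : p = 2
    · simp only [hb, hp2, if_true]
      have h2 : (0 : ℝ) ≤ (l : ℝ) := Nat.cast_nonneg l
      push_cast
      nlinarith
    · simp only [hb, hp2, if_false, one_mul]
      push_cast
      have h2 := Nat.floor_le (show 0 ≤ 2 * (p : ℝ) * W by positivity)
      nlinarith
  have h2 : ∏ p ∈ L.primeFactors, ((if p = 2 then (l : ℝ) else 1) * ((p : ℝ) * (3 * W))) ≤
      l * (L * (3 * W) ^ L.primeFactors.card) := by
    rw [prod_mul_distrib, prod_mul_distrib, prod_const, prod_ite_eq']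
    have h3 : (if 2 ∈ L.primeFactors then (l : ℝ) else 1) ≤ l := by
      split_ifs
      · exact le_rfl
      · exact_mod_cast hl
    have h4 : ∏ p ∈ L.primeFactors, (p : ℝ) ≤ L := by
      have h5 := Nat.le_of_dvd (by omega) (Nat.prod_primeFactors_dvd L)
      have h6 : (((∏ p ∈ L.primeFactors, p : ℕ)) : ℝ) ≤ (L : ℝ) := Nat.cast_le.2 h5
      rwa [Nat.cast_prod] at h6
    have h6 : 0 ≤ ∏ p ∈ L.primeFactors, (p : ℝ) := prod_nonneg fun p _ => Nat.cast_nonneg p
    have h7 : (0 : ℝ) ≤ (if 2 ∈ L.primeFactors then (l : ℝ) else 1) := by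
      split_ifs <;> positivity
    gcongr
  calc ((S.ncard : ℕ) : ℝ) ≤ (F.card : ℝ) := by exact_mod_cast hcard
    _ ≤ _ := h1
    _ ≤ _ := h2

end Pool.Agent.Work.MP_2738db_nt_C.helper83
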